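import Pool.Agent.TRA.Reg

/-!
# TRC9: regular sets with few vectors (helper59)

A regular set of at most `R + D + 1` nonzero vectors has rank at most `R` or corank at most `D`.
-/

set_option autoImplicit false
set_option linter.unusedSectionVars false

open Submodule Module

namespace Pool.Agent.TRC9

open Pool.Agent.SPT Pool.Agent.TRA

private theorem Card_PP {W V : Type} [AddCommGroup W] [Module (ZMod 2) W] [DecidableEq W]
    [AddCommGroup V] [Module (ZMod 2) V] [DecidableEq V]
    (e : W →ₗ[ZMod 2] V) (he : Function.Injective e) (X : Finset W) (x : V → ℂ) :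
    PP (X.image e) ⊥ x = PP X ⊥ (fun v => x (e v)) := by
  classical
  unfold PP
  symm
  refine Finset.sum_bij (fun W _ => W.image e) ?_ ?_ ?_ ?_
  · intro W hW
    rw [Finset.mem_powerset] at hW ⊢
    exact Finset.image_subset_image hW
  · intro W _ W' _ h
    exact Finset.image_injective he h
  · intro W hW
    rw [Finset.mem_powerset, Finset.subset_image_iff] at hW
    obtain ⟨W', h1, h2⟩ := hW
    exact ⟨W', Finset.mem_powerset.2 (by exact_mod_cast h1), h2⟩
  · intro W hW
    have h1 : Spans ⊥ (X.image e) (W.image e) ↔ Spans ⊥ X W := by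
      unfold Spans
      rw [bot_sup_eq, bot_sup_eq, bot_sup_eq, bot_sup_eq, Finset.coe_image, Finset.coe_image,
        span_image, span_image]
      exact (map_injective_of_injective he).eq_iff
    rw [Finset.prod_image (fun a _ b _ h => he h)]
    exact if_congr h1.symm rfl rfl

private theorem Card_image {W V : Type} [AddCommGroup W] [Module (ZMod 2) W] [DecidableEq W]
    [AddCommGroup V] [Module (ZMod 2) V] [DecidableEq V]
    (e : W →ₗ[ZMod 2] V) (he : Function.Injective e) (X : Finset W) (h : NonV X) :
    NonV (X.image e) := by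
  intro u hu
  obtain ⟨z, hz, hne⟩ := h (fun v => u (e v)) (fun v hv hv0 =>
    hu (e v) (Finset.mem_image_of_mem e hv) (fun h0 => hv0 (he (h0.trans (map_zero e).symm))))
  refine ⟨z, hz, ?_⟩
  rw [Card_PP e he]
  exact hne

/-- adding the zero vector -/
private theorem Card_zero {V : Type} [AddCommGroup V] [Module (ZMod 2) V] [DecidableEq V]
    (X : Finset V) (h : NonV (X.erase 0)) : NonV X := by
  intro u hu
  obtain ⟨z, hz, hne⟩ := h u fun v hv hv0 => hu v (Finset.mem_of_mem_erase hv) hv0
  refine ⟨z, hz, ?_⟩
  have hz0 : z ≠ 0 := by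
    intro h0
    rw [h0, norm_zero] at hz
    exact zero_ne_one hz
  by_cases h0 : (0 : V) ∈ X
  · rw [← Finset.insert_erase h0, PP_loop (X.erase 0) ⊥ _ 0 (Finset.notMem_erase _ _)
      (zero_mem _)]
    exact mul_ne_zero (zpow_ne_zero _ hz0) hne
  · rwa [Finset.erase_eq_of_notMem h0] at hne

/-- regular sets of at most `R + D + 1` nonzero vectors -/
theorem cardReg_of {R D : ℕ} (hR : RankReg R) (hD : CorankN D) : CardReg (R + D + 1) := by
  classical
  intro V _ _ _ X hX hc
  by_cases hr : finrank (ZMod 2) (span (ZMod 2) (X : Set V)) ≤ R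
  · exact hR V X hX hr
  rw [not_le] at hr
  refine Card_zero X ?_
  obtain ⟨W, hW⟩ : ∃ W, W = span (ZMod 2) (X : Set V) := ⟨_, rfl⟩
  have : Module.Finite (ZMod 2) W := by
    rw [hW]
    exact FiniteDimensional.span_finset (ZMod 2) X
  have hmem : ∀ v ∈ X.erase 0, v ∈ W := fun v hv => by
    rw [hW]
    exact subset_span (Finset.mem_coe.2 (Finset.mem_of_mem_erase hv))
  obtain ⟨Y, hY⟩ : ∃ Y : Finset W, Y = (X.erase 0).subtype (fun v => v ∈ W) := ⟨_, rfl⟩
  have himg : Y.image W.subtype = X.erase 0 := by
    ext v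
    rw [Finset.mem_image]
    constructor
    · rintro ⟨w, hw, rfl⟩
      rw [hY, Finset.mem_subtype] at hw
      exact hw
    · intro hv
      refine ⟨⟨v, hmem v hv⟩, ?_, rfl⟩
      rw [hY, Finset.mem_subtype]
      exact hv
  have hcard : Y.card = (X.erase 0).card := by
    rw [← himg, Finset.card_image_of_injective _ W.injective_subtype]
  have hspan : span (ZMod 2) ((X.erase 0 : Finset V) : Set V) = W := by
    rw [hW]
    refine le_antisymm (span_mono (Finset.coe_subset.2 (Finset.erase_subset _ _)))
      (span_le.2 fun v hv => ?_)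
    by_cases h0 : v = 0
    · rw [h0]
      exact Submodule.zero_mem _
    · exact subset_span (Finset.mem_coe.2 (Finset.mem_erase.2 ⟨h0, hv⟩))
  have hfin : finrank (ZMod 2) (span (ZMod 2) (Y : Set W)) =
      finrank (ZMod 2) (span (ZMod 2) (X : Set V)) := by
    rw [← hW, ← Submodule.finrank_map_subtype_eq W (span (ZMod 2) (Y : Set W)),
      Submodule.map_span]
    have h1 : (W.subtype '' (Y : Set W)) = ((X.erase 0 : Finset V) : Set V) := by
      rw [← himg, Finset.coe_image]
    rw [h1, hspan]
  have h0 : (0 : W) ∉ Y := by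
    intro h
    rw [hY, Finset.mem_subtype] at h
    exact (Finset.mem_erase.1 h).1 rfl
  rw [← himg]
  refine Card_image W.subtype W.injective_subtype Y (hD W Y h0 ?_)
  rw [hcard, hfin]
  omega

/-- **regular sets of at most nine nonzero vectors** -/
theorem cardReg9 (h5 : RankReg 5) (h3 : CorankN 3) : CardReg 9 := cardReg_of h5 h3

end Pool.Agent.TRC9
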